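import Mathlib

/-!
# MP_d3f0ca_an : the pointwise Hausdorff-type estimate `(∗)` and its constants

`(∗)` : `|f(x) - p_n(x)|_α ≤ (c/α) (n⁻² ln n + n⁻¹ √(1-x²) ln(e + M n))`.

We show that for each fixed `n ≥ 2` and each fixed `α > 0` the constants `c` for which every
`f ∈ C[-1,1]` has a polynomial of degree `≤ n` with `(∗)` are exactly those with
`c ≥ 2 n² / ln n`; hence no constant is admissible for all `n`.  The same holds if the logarithmic
factor is `ln(e + A M n)` for any `A > 0`, and (over all `α > 0`) if the logarithm multiplies the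
whole bracket `n⁻² ln n + n⁻¹ √(1-x²)`.
-/

namespace Pool.Agent.Results.MP_d3f0ca_an.NoAdmissibleConstant

open Set Polynomial

/-- The Hausdorff difference `|f(x) - g(x)|_α` on `Δ = [-1,1]`. -/
noncomputable def hausdorffDiff (f g : ℝ → ℝ) (α x : ℝ) : ℝ :=
  max (sInf ((fun t => max (|x - t| / α) |f x - g t|) '' Icc (-1 : ℝ) 1))
    (sInf ((fun t => max (|x - t| / α) |f t - g x|) '' Icc (-1 : ℝ) 1))

/-- `M(f) = max_{x ∈ [-1,1]} |f x|`. -/
noncomputable def maxAbs (f : ℝ → ℝ) : ℝ := sSup ((fun x => |f x|) '' Icc (-1 : ℝ) 1)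

/-- The right-hand side of `(∗)`, with logarithmic factor `ln(e + A M n)` (`A = 1` in `(∗)`). -/
noncomputable def bound (A c α : ℝ) (n : ℕ) (M x : ℝ) : ℝ :=
  c / α * (Real.log n / (n : ℝ) ^ 2
    + √(1 - x ^ 2) / (n : ℝ) * Real.log (Real.exp 1 + A * M * n))

/-- `(∗)` (with logarithmic factor `ln(e + A M n)`) is solvable for all `f ∈ C[-1,1]`, at the given
`c`, `α`, `n`. -/
def HoldsAt (A c α : ℝ) (n : ℕ) : Prop :=
  ∀ f : ℝ → ℝ, ContinuousOn f (Icc (-1 : ℝ) 1) →
    ∃ p : ℝ[X], p.natDegree ≤ n ∧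
      ∀ x ∈ Icc (-1 : ℝ) 1, hausdorffDiff f (fun y => p.eval y) α x ≤ bound A c α n (maxAbs f) x

/-- The right-hand side when the logarithm multiplies the whole bracket:
`(c/α) (n⁻² ln n + n⁻¹ √(1-x²)) ln(e + M n)`. -/
noncomputable def boundB (c α : ℝ) (n : ℕ) (M x : ℝ) : ℝ :=
  c / α * ((Real.log n / (n : ℝ) ^ 2 + √(1 - x ^ 2) / (n : ℝ)) * Real.log (Real.exp 1 + M * n))

/-- The estimate with `boundB` is solvable for all `f ∈ C[-1,1]` and all `α > 0`, at the given `c`
and `n`. -/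
def HoldsB (c : ℝ) (n : ℕ) : Prop :=
  ∀ f : ℝ → ℝ, ContinuousOn f (Icc (-1 : ℝ) 1) → ∀ α : ℝ, 0 < α →
    ∃ p : ℝ[X], p.natDegree ≤ n ∧
      ∀ x ∈ Icc (-1 : ℝ) 1, hausdorffDiff f (fun y => p.eval y) α x ≤ boundB c α n (maxAbs f) x

/-- Admissible constants, as in the problem. -/
def Admissible (c : ℝ) : Prop :=
  0 < c ∧ ∀ f : ℝ → ℝ, ContinuousOn f (Icc (-1 : ℝ) 1) → ∀ α : ℝ, 0 < α → ∀ n : ℕ, 2 ≤ n →
    ∃ p : ℝ[X], p.natDegree ≤ n ∧
      ∀ x ∈ Icc (-1 : ℝ) 1, hausdorffDiff f (fun y => p.eval y) α x ≤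
        c / α * (Real.log n / (n : ℝ) ^ 2
          + √(1 - x ^ 2) / (n : ℝ) * Real.log (Real.exp 1 + maxAbs f * n))

/-! ### The easy direction -/

lemma bddBelow_aux (α x : ℝ) (F : ℝ → ℝ) :
    BddBelow ((fun t => max (|x - t| / α) |F t|) '' Icc (-1 : ℝ) 1) := by
  refine ⟨0, ?_⟩
  rintro _ ⟨t, -, rfl⟩
  exact le_max_of_le_right (abs_nonneg _)

lemma sInf_le_of_zero {α x : ℝ} (hα : 0 < α) (hx : x ∈ Icc (-1 : ℝ) 1) {F : ℝ → ℝ}
    {t : ℝ} (ht : t ∈ Icc (-1 : ℝ) 1) (hF : F t = 0) :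
    sInf ((fun t => max (|x - t| / α) |F t|) '' Icc (-1 : ℝ) 1) ≤ 2 / α := by
  refine csInf_le_of_le (bddBelow_aux α x F) ⟨t, ht, rfl⟩ ?_
  have h2 : |x - t| ≤ 2 := by
    rw [abs_le]; constructor <;> linarith [hx.1, hx.2, ht.1, ht.2]
  have : |x - t| / α ≤ 2 / α := by gcongr
  simp only [hF, abs_zero]
  exact max_le this (by positivity)

lemma maxAbs_nonneg (f : ℝ → ℝ) : 0 ≤ maxAbs f := by
  unfold maxAbs
  apply Real.sSup_nonneg
  rintro _ ⟨t, -, rfl⟩
  exact abs_nonneg _

lemma log_term_nonneg {A M : ℝ} (hA : 0 < A) (hM : 0 ≤ M) (n : ℕ) :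
    1 ≤ Real.log (Real.exp 1 + A * M * n) := by
  rw [Real.le_log_iff_exp_le (by positivity)]
  have : 0 ≤ A * M * n := by positivity
  linarith

lemma exists_linear {α : ℝ} (hα : 0 < α) (f : ℝ → ℝ) (hf : ContinuousOn f (Icc (-1 : ℝ) 1)) :
    ∃ p : ℝ[X], p.natDegree ≤ 1 ∧
      ∀ x ∈ Icc (-1 : ℝ) 1, hausdorffDiff f (fun y => p.eval y) α x ≤ 2 / α := by
  have himg : f '' Icc (-1 : ℝ) 1 = Icc (sInf (f '' Icc (-1 : ℝ) 1)) (sSup (f '' Icc (-1 : ℝ) 1)) :=
    ContinuousOn.image_Icc (by norm_num) hf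
  set m1 := sInf (f '' Icc (-1 : ℝ) 1) with hm1
  set m2 := sSup (f '' Icc (-1 : ℝ) 1) with hm2
  have hmem : ∀ x ∈ Icc (-1 : ℝ) 1, f x ∈ Icc m1 m2 := fun x hx => himg ▸ mem_image_of_mem f hx
  have hm12 : m1 ≤ m2 := by
    have := hmem 0 (by constructor <;> norm_num)
    exact this.1.trans this.2
  refine ⟨C ((m1 + m2) / 2) + C ((m2 - m1) / 2) * X, ?_, ?_⟩
  · compute_degree
  · intro x hx
    have hev : ∀ y : ℝ, (C ((m1 + m2) / 2) + C ((m2 - m1) / 2) * X : ℝ[X]).eval y
        = (m1 + m2) / 2 + (m2 - m1) / 2 * y := by intro y; simp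
    simp only [hev]
    -- a point where the linear function takes the value f x
    have h1 : ∃ t ∈ Icc (-1 : ℝ) 1, f x - ((m1 + m2) / 2 + (m2 - m1) / 2 * t) = 0 := by
      have hcont : ContinuousOn (fun t : ℝ => (m1 + m2) / 2 + (m2 - m1) / 2 * t) (Icc (-1) 1) := by
        fun_prop
      have := intermediate_value_Icc (by norm_num : (-1 : ℝ) ≤ 1) hcont
      have hx' := hmem x hx
      have hfx : f x ∈ Icc ((m1 + m2) / 2 + (m2 - m1) / 2 * (-1))
          ((m1 + m2) / 2 + (m2 - m1) / 2 * 1) := by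
        constructor <;> linarith [hx'.1, hx'.2]
      obtain ⟨t, ht, hft⟩ := this hfx
      exact ⟨t, ht, by simp only at hft; linarith⟩
    have h2 : ∃ t ∈ Icc (-1 : ℝ) 1, f t - ((m1 + m2) / 2 + (m2 - m1) / 2 * x) = 0 := by
      have hp : ((m1 + m2) / 2 + (m2 - m1) / 2 * x) ∈ Icc m1 m2 := by
        constructor <;> nlinarith [hx.1, hx.2]
      rw [← himg] at hp
      obtain ⟨t, ht, hft⟩ := hp
      exact ⟨t, ht, by linarith⟩
    obtain ⟨t1, ht1, h1⟩ := h1
    obtain ⟨t2, ht2, h2⟩ := h2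
    refine max_le ?_ ?_
    · exact sInf_le_of_zero (F := fun t => f x - ((m1 + m2) / 2 + (m2 - m1) / 2 * t)) hα hx ht1 h1
    · exact sInf_le_of_zero (F := fun t => f t - ((m1 + m2) / 2 + (m2 - m1) / 2 * x)) hα hx ht2 h2

lemma two_le_of {c : ℝ} {n : ℕ} (hn : 2 ≤ n) (hc : 2 * (n : ℝ) ^ 2 / Real.log n ≤ c) :
    0 < c ∧ 2 ≤ c * (Real.log n / (n : ℝ) ^ 2) := by
  have hn' : (2 : ℝ) ≤ n := by exact_mod_cast hn
  have hlog : 0 < Real.log n := Real.log_pos (by linarith)
  refine ⟨lt_of_lt_of_le (by positivity) hc, ?_⟩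
  rw [div_le_iff₀ hlog] at hc
  rw [mul_div_assoc', le_div_iff₀ (by positivity)]
  linarith

lemma holdsAt_of_le {A c α : ℝ} {n : ℕ} (hA : 0 < A) (hα : 0 < α) (hn : 2 ≤ n)
    (hc : 2 * (n : ℝ) ^ 2 / Real.log n ≤ c) : HoldsAt A c α n := by
  intro f hf
  obtain ⟨hcpos, hc2⟩ := two_le_of hn hc
  obtain ⟨p, hp, hgood⟩ := exists_linear hα f hf
  refine ⟨p, by omega, fun x hx => (hgood x hx).trans ?_⟩
  unfold bound
  have hL := log_term_nonneg hA (maxAbs_nonneg f) n
  have hnn : 0 ≤ √(1 - x ^ 2) / (n : ℝ) * Real.log (Real.exp 1 + A * maxAbs f * n) := by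
    have : 0 ≤ Real.log (Real.exp 1 + A * maxAbs f * n) := by linarith
    positivity
  rw [div_mul_eq_mul_div]
  gcongr
  nlinarith

lemma holdsB_of_le {c : ℝ} {n : ℕ} (hn : 2 ≤ n)
    (hc : 2 * (n : ℝ) ^ 2 / Real.log n ≤ c) : HoldsB c n := by
  intro f hf α hα
  obtain ⟨hcpos, hc2⟩ := two_le_of hn hc
  obtain ⟨p, hp, hgood⟩ := exists_linear hα f hf
  refine ⟨p, by omega, fun x hx => (hgood x hx).trans ?_⟩
  unfold boundB
  have hL := log_term_nonneg one_pos (maxAbs_nonneg f) n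
  rw [one_mul] at hL
  have hn0 : (0 : ℝ) < n := by exact_mod_cast (by omega : 0 < n)
  have hnn : 0 ≤ √(1 - x ^ 2) / (n : ℝ) := by positivity
  have hlog0 : 0 ≤ Real.log n := Real.log_natCast_nonneg n
  rw [div_mul_eq_mul_div]
  gcongr
  calc (2 : ℝ) ≤ c * (Real.log n / (n : ℝ) ^ 2) := hc2
    _ ≤ c * (Real.log n / (n : ℝ) ^ 2 + √(1 - x ^ 2) / (n : ℝ)) := by gcongr; linarith
    _ ≤ c * ((Real.log n / (n : ℝ) ^ 2 + √(1 - x ^ 2) / (n : ℝ))
          * Real.log (Real.exp 1 + maxAbs f * n)) := by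
        gcongr
        exact le_mul_of_one_le_right (by positivity) hL

/-! ### Growth of a polynomial bounded on a short interval -/

lemma poly_growth (n : ℕ) (hn : 1 ≤ n) (p : ℝ[X]) (hp : p.natDegree ≤ n) (η B : ℝ) (hη : 0 < η)
    (hB : 0 ≤ B) (hη1 : η ≤ 2)
    (hb : ∀ x ∈ Icc (-1 : ℝ) (-1 + η), |p.eval x| ≤ B) (t : ℝ) (ht : t ∈ Icc (-1 : ℝ) 1) :
    |p.eval t| ≤ (n + 1) * B * (2 * n / η) ^ n := by
  have hn0 : (0 : ℝ) < n := by exact_mod_cast hn
  let v : ℕ → ℝ := fun i => -1 + η * i / n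
  have hvinj : Set.InjOn v (Finset.range (n + 1) : Set ℕ) := by
    intro i _ j _ hij
    simp only [v] at hij
    have h1 : η * i / n = η * j / n := by linarith
    have h2 : η * (i : ℝ) = η * j := by
      field_simp at h1
      nlinarith
    have h3 : (i : ℝ) = j := mul_left_cancel₀ hη.ne' h2
    exact_mod_cast h3
  have hdeg : p.degree < (Finset.range (n + 1)).card := by
    rw [Finset.card_range]
    calc p.degree ≤ p.natDegree := degree_le_natDegree
      _ ≤ (n : WithBot ℕ) := by exact_mod_cast hp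
      _ < ((n + 1 : ℕ) : WithBot ℕ) := by exact_mod_cast Nat.lt_succ_self n
  have hinter := Lagrange.eq_interpolate (s := Finset.range (n + 1)) (v := v) (f := p) hvinj hdeg
  have hvmem : ∀ i ∈ Finset.range (n + 1), v i ∈ Icc (-1 : ℝ) (-1 + η) := by
    intro i hi
    have hi' : (i : ℝ) ≤ n := by
      have := Finset.mem_range.mp hi
      exact_mod_cast (by omega : i ≤ n)
    simp only [v]
    constructor
    · have : 0 ≤ η * i / n := by positivity
      linarith
    · have : η * i / n ≤ η := by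
        rw [div_le_iff₀ hn0]
        nlinarith
      linarith
  have hbasis : ∀ i ∈ Finset.range (n + 1),
      |(Lagrange.basis (Finset.range (n + 1)) v i).eval t| ≤ (2 * n / η) ^ n := by
    intro i hi
    unfold Lagrange.basis
    rw [eval_prod, Finset.abs_prod]
    have hcard : ((Finset.range (n + 1)).erase i).card = n := by
      rw [Finset.card_erase_of_mem hi, Finset.card_range]; rfl
    calc ∏ j ∈ (Finset.range (n + 1)).erase i, |(Lagrange.basisDivisor (v i) (v j)).eval t|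
        ≤ ∏ _j ∈ (Finset.range (n + 1)).erase i, (2 * n / η) := by
          apply Finset.prod_le_prod
          · intro j _; exact abs_nonneg _
          · intro j hj
            have hji : j ≠ i := Finset.ne_of_mem_erase hj
            have hjmem : j ∈ Finset.range (n + 1) := Finset.mem_of_mem_erase hj
            simp only [Lagrange.basisDivisor, eval_mul, eval_C, eval_sub, eval_X]
            rw [abs_mul, abs_inv]
            have hvj := hvmem j hjmem
            have h1 : |t - v j| ≤ 2 := by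
              rw [abs_le]; constructor <;> linarith [ht.1, ht.2, hvj.1, hvj.2]
            have h2 : η / n ≤ |v i - v j| := by
              have : v i - v j = η / n * ((i : ℝ) - j) := by simp only [v]; ring
              rw [this, abs_mul, abs_of_pos (by positivity : 0 < η / n)]
              have h3 : (1 : ℝ) ≤ |(i : ℝ) - j| := by
                have : (1 : ℤ) ≤ |(i : ℤ) - j| := by
                  apply Int.one_le_abs
                  intro h
                  exact hji (by omega)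
                exact_mod_cast this
              have : 0 < η / n := by positivity
              nlinarith
            have h4 : |v i - v j|⁻¹ ≤ (η / n)⁻¹ := inv_anti₀ (by positivity) h2
            calc |v i - v j|⁻¹ * |t - v j| ≤ (η / n)⁻¹ * 2 := by gcongr
              _ = 2 * n / η := by field_simp
      _ = (2 * n / η) ^ n := by rw [Finset.prod_const, hcard]
  have hpt : p.eval t = ∑ i ∈ Finset.range (n + 1),
      p.eval (v i) * (Lagrange.basis (Finset.range (n + 1)) v i).eval t := by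
    conv_lhs => rw [hinter]
    rw [Lagrange.interpolate_apply, eval_finsetSum]
    simp
  rw [hpt]
  calc |∑ i ∈ Finset.range (n + 1), p.eval (v i) * (Lagrange.basis (Finset.range (n + 1)) v i).eval t|
      ≤ ∑ i ∈ Finset.range (n + 1), |p.eval (v i) * (Lagrange.basis (Finset.range (n + 1)) v i).eval t| :=
        Finset.abs_sum_le_sum_abs _ _
    _ ≤ ∑ _i ∈ Finset.range (n + 1), B * (2 * n / η) ^ n := by
        apply Finset.sum_le_sum
        intro i hi
        rw [abs_mul]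
        have h1 := hb (v i) (hvmem i hi)
        have h2 := hbasis i hi
        gcongr
    _ = (n + 1) * B * (2 * n / η) ^ n := by
        rw [Finset.sum_const, Finset.card_range]; push_cast [nsmul_eq_mul]; ring

/-! ### The hard direction -/

lemma exists_of_sInf_le {α x R : ℝ} {F : ℝ → ℝ} (hF : ContinuousOn F (Icc (-1 : ℝ) 1))
    (h : sInf ((fun t => max (|x - t| / α) |F t|) '' Icc (-1 : ℝ) 1) ≤ R) :
    ∃ t ∈ Icc (-1 : ℝ) 1, |x - t| / α ≤ R ∧ |F t| ≤ R := by
  have hcont : ContinuousOn (fun t => max (|x - t| / α) |F t|) (Icc (-1 : ℝ) 1) := by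
    exact ContinuousOn.sup (by fun_prop) hF.abs
  obtain ⟨t, ht, hmin⟩ := isCompact_Icc.exists_isMinOn
    (⟨-1, by constructor <;> norm_num⟩ : (Icc (-1 : ℝ) 1).Nonempty) hcont
  have hle : max (|x - t| / α) |F t| ≤
      sInf ((fun t => max (|x - t| / α) |F t|) '' Icc (-1 : ℝ) 1) := by
    apply le_csInf
    · exact ⟨_, ⟨t, ht, rfl⟩⟩
    · rintro _ ⟨s, hs, rfl⟩
      exact hmin hs
  have := hle.trans h
  exact ⟨t, ht, (le_max_left _ _).trans this, (le_max_right _ _).trans this⟩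

/-- the test function: `0` on `[-1, 1-κ]`, linear from `0` to `M` on `[1-κ, 1]`. -/
noncomputable def ramp (κ M : ℝ) (x : ℝ) : ℝ := M * max 0 (1 - (1 - x) / κ)

lemma ramp_continuous (κ M : ℝ) : Continuous (ramp κ M) := by
  unfold ramp; fun_prop

lemma ramp_one (κ M : ℝ) : ramp κ M 1 = M := by simp [ramp]

lemma ramp_zero {κ M x : ℝ} (hκ : 0 < κ) (hx : x ≤ 1 - κ) : ramp κ M x = 0 := by
  unfold ramp
  have : 1 - (1 - x) / κ ≤ 0 := by
    have : 1 ≤ (1 - x) / κ := by rw [le_div_iff₀ hκ]; linarith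
    linarith
  rw [max_eq_left this, mul_zero]

lemma ramp_maxAbs {κ M : ℝ} (hκ : 0 < κ) (hM : 0 ≤ M) : maxAbs (ramp κ M) = M := by
  unfold maxAbs
  apply IsGreatest.csSup_eq
  constructor
  · exact ⟨1, by constructor <;> norm_num, by simp [ramp_one, abs_of_nonneg hM]⟩
  · rintro _ ⟨x, hx, rfl⟩
    simp only [ramp]
    have h0 : 0 ≤ max 0 (1 - (1 - x) / κ) := le_max_left _ _
    have h1 : max 0 (1 - (1 - x) / κ) ≤ 1 := by
      apply max_le (by norm_num)
      have : 0 ≤ (1 - x) / κ := div_nonneg (by linarith [hx.2]) hκ.le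
      linarith
    rw [abs_of_nonneg (by positivity)]
    nlinarith

lemma exists_large (A K₂ α : ℝ) (n : ℕ) (hA : 0 < A) (hK : 0 < K₂) (hα : 0 < α) (hn : 2 ≤ n) :
    ∃ M : ℝ, 0 < M ∧ K₂ * (Real.log (Real.exp 1 + A * M * n)) ^ (2 * n) < M - 2 / α := by
  have hn' : (0 : ℝ) < n := by exact_mod_cast (by omega : 0 < n)
  have hlo := (Real.isLittleO_pow_log_id_atTop (n := 2 * n)).def
    (show (0 : ℝ) < 1 / (2 * A * n * K₂) by positivity)
  obtain ⟨u, hu1, hu2⟩ := (hlo.and (Filter.eventually_gt_atTop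
    (2 * Real.exp 1 + 4 * A * n / α))).exists
  have he : 0 < Real.exp 1 := Real.exp_pos 1
  have hαn : 0 < 4 * A * n / α := by positivity
  have hupos : 0 < u := by linarith
  refine ⟨(u - Real.exp 1) / (A * n), by apply div_pos <;> [linarith; positivity], ?_⟩
  have h1 : Real.exp 1 + A * ((u - Real.exp 1) / (A * n)) * n = u := by
    field_simp; ring
  rw [h1]
  have h2 : (Real.log u) ^ (2 * n) ≤ 1 / (2 * A * n * K₂) * u := by
    have := hu1
    simp only [Real.norm_eq_abs, id] at this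
    rw [abs_of_pos hupos] at this
    exact (le_abs_self _).trans this
  have h3 : K₂ * (Real.log u) ^ (2 * n) ≤ u / (2 * A * n) := by
    calc K₂ * (Real.log u) ^ (2 * n) ≤ K₂ * (1 / (2 * A * n * K₂) * u) := by gcongr
      _ = u / (2 * A * n) := by field_simp
  refine lt_of_le_of_lt h3 ?_
  have h4 : (u - Real.exp 1) / (A * n) - 2 / α - u / (2 * A * n)
      = (u - (2 * Real.exp 1 + 4 * A * n / α)) / (2 * A * n) := by
    field_simp
    ring
  have h5 : 0 < (u - (2 * Real.exp 1 + 4 * A * n / α)) / (2 * A * n) := by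
    apply div_pos
    · linarith
    · positivity
  linarith

lemma exists_bad {A c α : ℝ} {n : ℕ} (hA : 0 < A) (hα : 0 < α) (hn : 2 ≤ n)
    (hc : c * Real.log n < 2 * (n : ℝ) ^ 2) :
    ∃ f : ℝ → ℝ, Continuous f ∧ ∀ p : ℝ[X], p.natDegree ≤ n →
      ∃ x ∈ Icc (-1 : ℝ) 1,
        bound A c α n (maxAbs f) x < hausdorffDiff f (fun y => p.eval y) α x := by
  have hn' : (2 : ℝ) ≤ n := by exact_mod_cast hn
  have hn0 : (0 : ℝ) < n := by linarith
  have hlog : 0 < Real.log n := Real.log_pos (by linarith)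
  have hlog2 : Real.log n ≤ n := by
    have := Real.log_le_sub_one_of_pos hn0
    linarith
  -- enlarge c to c' ≥ 1
  set c' := max c 1 with hc'
  have hc'1 : 1 ≤ c' := le_max_right _ _
  have hcc' : c ≤ c' := le_max_left _ _
  have hc'log : c' * Real.log n < 2 * (n : ℝ) ^ 2 := by
    rcases le_total c 1 with h | h
    · rw [hc', max_eq_right h]; nlinarith
    · rw [hc', max_eq_left h]; exact hc
  have hc'0 : 0 < c' := by linarith
  set δ := 2 - c' * Real.log n / (n : ℝ) ^ 2 with hδ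
  have hδ0 : 0 < δ := by
    have : c' * Real.log n / (n : ℝ) ^ 2 < 2 := by
      rw [div_lt_iff₀ (by positivity)]; exact hc'log
    linarith
  have hδ2 : δ ≤ 2 := by
    have : 0 ≤ c' * Real.log n / (n : ℝ) ^ 2 := by positivity
    linarith
  set K := 4 / δ + 32 * c' ^ 2 / (δ ^ 2 * n ^ 2) with hK
  have hK0 : 0 < K := by positivity
  obtain ⟨M, hM0, hMlarge⟩ := exists_large A ((n + 1) * (2 / α) * (2 * n * K) ^ n) α n hA
    (by positivity) hα hn
  set L := Real.log (Real.exp 1 + A * M * n) with hL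
  have hL1 : 1 ≤ L := log_term_nonneg hA hM0.le n
  set η := 1 / (K * L ^ 2) with hη
  have hL2 : 1 ≤ L ^ 2 := by nlinarith
  have hη0 : 0 < η := by positivity
  have hη1 : η ≤ δ / 4 := by
    rw [hη, div_le_iff₀ (by positivity)]
    have : 4 / δ ≤ K := by rw [hK]; have : 0 ≤ 32 * c' ^ 2 / (δ ^ 2 * n ^ 2) := by positivity
                           linarith
    have h2 : 4 / δ ≤ K * L ^ 2 := by nlinarith
    calc (1 : ℝ) = δ / 4 * (4 / δ) := by field_simp
      _ ≤ δ / 4 * (K * L ^ 2) := by gcongr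
  have hη2 : √(2 * η) ≤ δ * n / (4 * c' * L) := by
    apply Real.sqrt_le_iff.mpr
    refine ⟨by positivity, ?_⟩
    have h1 : 32 * c' ^ 2 / (δ ^ 2 * n ^ 2) ≤ K := by
      rw [hK]; have : 0 ≤ 4 / δ := by positivity
      linarith
    have h2 : (32 * c' ^ 2 / (δ ^ 2 * n ^ 2)) * L ^ 2 ≤ K * L ^ 2 := by gcongr
    calc 2 * η = 2 / (K * L ^ 2) := by rw [hη]; ring
      _ ≤ 2 / ((32 * c' ^ 2 / (δ ^ 2 * n ^ 2)) * L ^ 2) := by gcongr
      _ = (δ * n / (4 * c' * L)) ^ 2 := by field_simp; norm_num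
  refine ⟨ramp (δ / 4) M, ramp_continuous _ _, ?_⟩
  intro p hp
  by_contra hcon
  push Not at hcon
  have hMax : maxAbs (ramp (δ / 4) M) = M := ramp_maxAbs (by positivity) hM0.le
  rw [hMax] at hcon
  -- α * bound with c'
  have hbound : ∀ x : ℝ, bound A c α n M x ≤
      (c' * Real.log n / (n : ℝ) ^ 2 + c' * √(1 - x ^ 2) * L / n) / α := by
    intro x
    unfold bound
    rw [← hL]
    have hb0 : 0 ≤ Real.log n / (n : ℝ) ^ 2 + √(1 - x ^ 2) / (n : ℝ) * L := by positivity
    calc c / α * (Real.log n / (n : ℝ) ^ 2 + √(1 - x ^ 2) / (n : ℝ) * L)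
        ≤ c' / α * (Real.log n / (n : ℝ) ^ 2 + √(1 - x ^ 2) / (n : ℝ) * L) := by gcongr
      _ = _ := by field_simp
  have hcont : Continuous (fun y => p.eval y) := p.continuous
  have hrc := ramp_continuous (δ / 4) M
  -- step 1
  have hstep1 : ∀ x ∈ Icc (-1 : ℝ) (-1 + η), |p.eval x| ≤ 2 / α := by
    intro x hx
    have hxI : x ∈ Icc (-1 : ℝ) 1 := ⟨hx.1, by linarith [hx.2]⟩
    have h1 := (le_max_right _ _).trans (hcon x hxI)
    obtain ⟨t, ht, ht1, ht2⟩ := exists_of_sInf_le (F := fun t => ramp (δ / 4) M t - p.eval x)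
      (by apply Continuous.continuousOn; fun_prop) h1
    have h2 := hbound x
    have hsq : √(1 - x ^ 2) ≤ √(2 * η) := by
      apply Real.sqrt_le_sqrt
      nlinarith [hx.1, hx.2]
    have h3 : c' * √(1 - x ^ 2) * L / n ≤ δ / 4 := by
      calc c' * √(1 - x ^ 2) * L / n ≤ c' * (δ * n / (4 * c' * L)) * L / n := by
            gcongr; exact hsq.trans hη2
        _ = δ / 4 := by field_simp
    have h4 : (c' * Real.log n / (n : ℝ) ^ 2 + c' * √(1 - x ^ 2) * L / n) ≤ 2 - 3 * δ / 4 := by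
      have : c' * Real.log n / (n : ℝ) ^ 2 = 2 - δ := by rw [hδ]; ring
      linarith
    have h5 : bound A c α n M x ≤ (2 - 3 * δ / 4) / α := h2.trans (by gcongr)
    have h6 : |x - t| ≤ 2 - 3 * δ / 4 := by
      have := ht1.trans h5
      rwa [div_le_div_iff_of_pos_right hα] at this
    have h7 : t ≤ 1 - δ / 4 := by
      have := (abs_le.mp h6).1
      linarith [hx.2]
    have h8 : ramp (δ / 4) M t = 0 := ramp_zero (by positivity) h7
    simp only [h8, zero_sub, abs_neg] at ht2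
    refine ht2.trans (h5.trans ?_)
    gcongr
    linarith
  -- step 2
  have hη3 : η ≤ 2 := by linarith
  have hgrow := poly_growth n (by omega) p hp η (2 / α) hη0 (by positivity) hη3 hstep1
  -- step 3
  have hone : (1 : ℝ) ∈ Icc (-1 : ℝ) 1 := by constructor <;> norm_num
  have h1 := (le_max_left _ _).trans (hcon 1 hone)
  obtain ⟨t, ht, -, ht2⟩ := exists_of_sInf_le (F := fun t => ramp (δ / 4) M 1 - p.eval t)
    (by apply Continuous.continuousOn; fun_prop) h1
  have h2 := hbound 1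
  have h3 : bound A c α n M 1 ≤ 2 / α := by
    refine h2.trans ?_
    gcongr
    have : c' * Real.log n / (n : ℝ) ^ 2 = 2 - δ := by rw [hδ]; ring
    rw [this]; norm_num; linarith
  simp only [ramp_one] at ht2
  have h4 : M - 2 / α ≤ |p.eval t| := by
    have h5 := ht2.trans h3
    have h6 := (abs_le.mp h5).2
    linarith [le_abs_self (p.eval t)]
  have h5 := hgrow t ht
  have h6 : (n + 1) * (2 / α) * (2 * n / η) ^ n
      = (n + 1) * (2 / α) * (2 * n * K) ^ n * L ^ (2 * n) := by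
    have : 2 * n / η = (2 * n * K) * L ^ 2 := by rw [hη]; field_simp
    rw [this, mul_pow, ← pow_mul]
    ring
  rw [h6] at h5
  linarith

lemma exists_badB {c : ℝ} {n : ℕ} (hn : 2 ≤ n) (hc : c * Real.log n < 2 * (n : ℝ) ^ 2) :
    ∃ f : ℝ → ℝ, Continuous f ∧ ∃ α : ℝ, 0 < α ∧ ∀ p : ℝ[X], p.natDegree ≤ n →
      ∃ x ∈ Icc (-1 : ℝ) 1,
        boundB c α n (maxAbs f) x < hausdorffDiff f (fun y => p.eval y) α x := by
  have hn' : (2 : ℝ) ≤ n := by exact_mod_cast hn
  have hn0 : (0 : ℝ) < n := by linarith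
  have hlog : 0 < Real.log n := Real.log_pos (by linarith)
  have hlog2 : Real.log n ≤ n := by
    have := Real.log_le_sub_one_of_pos hn0
    linarith
  set c' := max c 1 with hc'
  have hc'1 : 1 ≤ c' := le_max_right _ _
  have hcc' : c ≤ c' := le_max_left _ _
  have hc'log : c' * Real.log n < 2 * (n : ℝ) ^ 2 := by
    rcases le_total c 1 with h | h
    · rw [hc', max_eq_right h]; nlinarith
    · rw [hc', max_eq_left h]; exact hc
  have hc'0 : 0 < c' := by linarith
  set δ := 2 - c' * Real.log n / (n : ℝ) ^ 2 with hδ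
  have hδ0 : 0 < δ := by
    have : c' * Real.log n / (n : ℝ) ^ 2 < 2 := by
      rw [div_lt_iff₀ (by positivity)]; exact hc'log
    linarith
  have hδ2 : δ ≤ 2 := by
    have : 0 ≤ c' * Real.log n / (n : ℝ) ^ 2 := by positivity
    linarith
  have hq : c' * (Real.log n / (n : ℝ) ^ 2) = 2 - δ := by rw [hδ]; ring
  set M := (Real.exp (1 + δ / 4) - Real.exp 1) / n with hM
  have hM0 : 0 < M := by
    have : Real.exp 1 < Real.exp (1 + δ / 4) := Real.exp_lt_exp.mpr (by linarith)
    apply div_pos <;> linarith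
  have hL : Real.log (Real.exp 1 + M * n) = 1 + δ / 4 := by
    have : Real.exp 1 + M * n = Real.exp (1 + δ / 4) := by rw [hM]; field_simp; ring
    rw [this, Real.log_exp]
  set η := min (δ / 8) ((δ * n / (12 * c')) ^ 2 / 2) with hη
  have hη0 : 0 < η := lt_min (by positivity) (by positivity)
  have hη1 : η ≤ δ / 8 := min_le_left _ _
  have hη2 : √(2 * η) ≤ δ * n / (12 * c') := by
    apply Real.sqrt_le_iff.mpr
    refine ⟨by positivity, ?_⟩
    have : η ≤ (δ * n / (12 * c')) ^ 2 / 2 := min_le_right _ _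
    linarith
  set G := (n + 1) * 2 * (2 * n / η) ^ n with hG
  have hG0 : 0 < G := by positivity
  set α := (3 + G) / M with hα
  have hα0 : 0 < α := by positivity
  refine ⟨ramp (δ / 4) M, ramp_continuous _ _, α, hα0, ?_⟩
  intro p hp
  by_contra hcon
  push Not at hcon
  have hMax : maxAbs (ramp (δ / 4) M) = M := ramp_maxAbs (by positivity) hM0.le
  rw [hMax] at hcon
  have hbound : ∀ x : ℝ, boundB c α n M x ≤
      ((2 - δ) * (1 + δ / 4) + c' * √(1 - x ^ 2) * (1 + δ / 4) / n) / α := by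
    intro x
    unfold boundB
    rw [hL]
    calc c / α * ((Real.log n / (n : ℝ) ^ 2 + √(1 - x ^ 2) / (n : ℝ)) * (1 + δ / 4))
        ≤ c' / α * ((Real.log n / (n : ℝ) ^ 2 + √(1 - x ^ 2) / (n : ℝ)) * (1 + δ / 4)) := by
          gcongr
      _ = (c' * (Real.log n / (n : ℝ) ^ 2) * (1 + δ / 4)
            + c' * √(1 - x ^ 2) * (1 + δ / 4) / n) / α := by field_simp
      _ = _ := by rw [hq]
  have hfirst : (2 - δ) * (1 + δ / 4) ≤ 2 - δ / 2 := by nlinarith
  have hcont : Continuous (fun y => p.eval y) := p.continuous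
  have hrc := ramp_continuous (δ / 4) M
  have hstep1 : ∀ x ∈ Icc (-1 : ℝ) (-1 + η), |p.eval x| ≤ 2 / α := by
    intro x hx
    have hxI : x ∈ Icc (-1 : ℝ) 1 := ⟨hx.1, by linarith [hx.2]⟩
    have h1 := (le_max_right _ _).trans (hcon x hxI)
    obtain ⟨t, ht, ht1, ht2⟩ := exists_of_sInf_le (F := fun t => ramp (δ / 4) M t - p.eval x)
      (by apply Continuous.continuousOn; fun_prop) h1
    have h2 := hbound x
    have hsq : √(1 - x ^ 2) ≤ √(2 * η) := by
      apply Real.sqrt_le_sqrt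
      nlinarith [hx.1, hx.2]
    have h3 : c' * √(1 - x ^ 2) * (1 + δ / 4) / n ≤ δ / 8 := by
      calc c' * √(1 - x ^ 2) * (1 + δ / 4) / n
          ≤ c' * (δ * n / (12 * c')) * (3 / 2) / n := by
            gcongr
            · exact hsq.trans hη2
            · linarith
        _ = δ / 8 := by field_simp; norm_num
    have h4 : ((2 - δ) * (1 + δ / 4) + c' * √(1 - x ^ 2) * (1 + δ / 4) / n)
        ≤ 2 - 3 * δ / 8 := by linarith
    have h5 : boundB c α n M x ≤ (2 - 3 * δ / 8) / α := h2.trans (by gcongr)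
    have h6 : |x - t| ≤ 2 - 3 * δ / 8 := by
      have := ht1.trans h5
      rwa [div_le_div_iff_of_pos_right hα0] at this
    have h7 : t ≤ 1 - δ / 4 := by
      have := (abs_le.mp h6).1
      linarith [hx.2]
    have h8 : ramp (δ / 4) M t = 0 := ramp_zero (by positivity) h7
    simp only [h8, zero_sub, abs_neg] at ht2
    refine ht2.trans (h5.trans ?_)
    gcongr
    linarith
  have hη3 : η ≤ 2 := by linarith
  have hgrow := poly_growth n (by omega) p hp η (2 / α) hη0 (by positivity) hη3 hstep1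
  have hone : (1 : ℝ) ∈ Icc (-1 : ℝ) 1 := by constructor <;> norm_num
  have h1 := (le_max_left _ _).trans (hcon 1 hone)
  obtain ⟨t, ht, -, ht2⟩ := exists_of_sInf_le (F := fun t => ramp (δ / 4) M 1 - p.eval t)
    (by apply Continuous.continuousOn; fun_prop) h1
  have h2 := hbound 1
  have h3 : boundB c α n M 1 ≤ 2 / α := by
    refine h2.trans ?_
    gcongr
    norm_num
    linarith
  simp only [ramp_one] at ht2
  have h4 : M - 2 / α ≤ |p.eval t| := by
    have h5 := ht2.trans h3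
    have h6 := (abs_le.mp h5).2
    linarith [le_abs_self (p.eval t)]
  have h5 := hgrow t ht
  have h6 : (n + 1) * (2 / α) * (2 * n / η) ^ n = G / α := by rw [hG]; ring
  rw [h6] at h5
  have h7 : M ≤ (2 + G) / α := by
    have : (2 + G) / α = 2 / α + G / α := by ring
    linarith
  rw [le_div_iff₀ hα0] at h7
  have h8 : M * α = 3 + G := by rw [hα]; field_simp
  linarith

theorem holdsB_iff {c : ℝ} {n : ℕ} (hn : 2 ≤ n) :
    HoldsB c n ↔ 2 * (n : ℝ) ^ 2 / Real.log n ≤ c := by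
  have hn' : (2 : ℝ) ≤ n := by exact_mod_cast hn
  have hlog : 0 < Real.log n := Real.log_pos (by linarith)
  constructor
  · intro h
    by_contra hlt
    push Not at hlt
    rw [lt_div_iff₀ hlog] at hlt
    obtain ⟨f, hf, α, hα, hbad⟩ := exists_badB hn hlt
    obtain ⟨p, hp, hgood⟩ := h f hf.continuousOn α hα
    obtain ⟨x, hx, hlt'⟩ := hbad p hp
    exact absurd (hgood x hx) (not_le.mpr hlt')
  · exact holdsB_of_le hn

/-- For fixed `n ≥ 2`, `α > 0`, the best constant is exactly `2 n² / ln n`. -/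
theorem holdsAt_iff {A c α : ℝ} {n : ℕ} (hA : 0 < A) (hα : 0 < α) (hn : 2 ≤ n) :
    HoldsAt A c α n ↔ 2 * (n : ℝ) ^ 2 / Real.log n ≤ c := by
  have hn' : (2 : ℝ) ≤ n := by exact_mod_cast hn
  have hlog : 0 < Real.log n := Real.log_pos (by linarith)
  constructor
  · intro h
    by_contra hlt
    push Not at hlt
    rw [lt_div_iff₀ hlog] at hlt
    obtain ⟨f, hf, hbad⟩ := exists_bad hA hα hn hlt
    obtain ⟨p, hp, hgood⟩ := h f hf.continuousOn
    obtain ⟨x, hx, hlt'⟩ := hbad p hp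
    exact absurd (hgood x hx) (not_le.mpr hlt')
  · exact holdsAt_of_le hA hα hn

theorem not_admissible (c : ℝ) : ¬ Admissible c := by
  rintro ⟨-, h⟩
  -- choose n with 2 n² / log n > c
  obtain ⟨n, hn2, hn⟩ : ∃ n : ℕ, 2 ≤ n ∧ c * Real.log n < 2 * (n : ℝ) ^ 2 := by
    obtain ⟨m, hm⟩ := exists_nat_gt (max c 2)
    have hm2 : (2 : ℝ) < m := (le_max_right _ _).trans_lt hm
    have hmc : c < m := (le_max_left _ _).trans_lt hm
    refine ⟨m, by exact_mod_cast hm2.le, ?_⟩
    have hlog : 0 < Real.log m := Real.log_pos (by linarith)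
    have hlog2 : Real.log m ≤ m := by
      have := Real.log_le_sub_one_of_pos (by linarith : (0 : ℝ) < m)
      linarith
    nlinarith
  obtain ⟨f, hf, hbad⟩ := exists_bad (A := 1) (c := c) (α := 1) one_pos one_pos hn2 hn
  obtain ⟨p, hp, hgood⟩ := h f hf.continuousOn 1 one_pos n hn2
  obtain ⟨x, hx, hlt'⟩ := hbad p hp
  have := hgood x hx
  simp only [bound, one_mul] at hlt'
  exact absurd this (not_le.mpr hlt')

/-- **Main result.**  (1) No constant is admissible.  (2) For every fixed `n ≥ 2` and `α > 0` (and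
every `A > 0` in the logarithmic factor `ln(e + A M n)`, `A = 1` being the factor of `(∗)`), the
constants `c` with which `(∗)` is solvable for all `f ∈ C[-1,1]` are exactly those with
`c ≥ 2 n² / ln n`.  (3) The same threshold, over all `α > 0`, for the form of the estimate in which
the logarithm multiplies the whole bracket. -/
theorem result :
    (∀ c : ℝ, ¬ Admissible c) ∧
    (∀ (A c α : ℝ) (n : ℕ), 0 < A → 0 < α → 2 ≤ n →
      (HoldsAt A c α n ↔ 2 * (n : ℝ) ^ 2 / Real.log n ≤ c)) ∧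
    (∀ (c : ℝ) (n : ℕ), 2 ≤ n → (HoldsB c n ↔ 2 * (n : ℝ) ^ 2 / Real.log n ≤ c)) :=
  ⟨not_admissible, fun _ _ _ _ hA hα hn => holdsAt_iff hA hα hn, fun _ _ hn => holdsB_iff hn⟩

end Pool.Agent.Results.MP_d3f0ca_an.NoAdmissibleConstant
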